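import Pool.Agent.Helper99_Eng3.Stmts

set_option autoImplicit false

open scoped commutatorElement

namespace Pool.Agent.Eng.H49

section
variable {F : Type} [Field F]

abbrev U2 (F : Type) := (Fin 2 → F) × (Fin 2 → F)

/-- `(a, b) ↦ (a₀ + s a₁, a₁), (b₀, b₁ - s b₀)` -/
def wA (s : F) : U2 F ≃ₗ[F] U2 F where
  toFun u := (![u.1 0 + s * u.1 1, u.1 1], ![u.2 0, u.2 1 - s * u.2 0])
  map_add' u v := by
    ext i
    · fin_cases i
      · simp; ring
      · simp
    · fin_cases i
      · simp
      · simp; ring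
  map_smul' c u := by
    ext i
    · fin_cases i
      · simp; ring
      · simp
    · fin_cases i
      · simp
      · simp; ring
  invFun u := (![u.1 0 - s * u.1 1, u.1 1], ![u.2 0, u.2 1 + s * u.2 0])
  left_inv u := by
    ext i
    · fin_cases i <;> simp
    · fin_cases i <;> simp
  right_inv u := by
    ext i
    · fin_cases i <;> simp
    · fin_cases i <;> simp

/-- `(a, b) ↦ (a₀, a₁ - a₀), (b₀ + b₁, b₁)` -/
def zA : U2 F ≃ₗ[F] U2 F where
  toFun u := (![u.1 0, u.1 1 - u.1 0], ![u.2 0 + u.2 1, u.2 1])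
  map_add' u v := by
    ext i
    · fin_cases i
      · simp
      · simp; ring
    · fin_cases i
      · simp; ring
      · simp
  map_smul' c u := by
    ext i
    · fin_cases i
      · simp
      · simp; ring
    · fin_cases i
      · simp; ring
      · simp
  invFun u := (![u.1 0, u.1 1 + u.1 0], ![u.2 0 - u.2 1, u.2 1])
  left_inv u := by
    ext i
    · fin_cases i <;> simp
    · fin_cases i <;> simp
  right_inv u := by
    ext i
    · fin_cases i <;> simp
    · fin_cases i <;> simp

/-- the involution `diag(-1,1)` -/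
def dA : U2 F ≃ₗ[F] U2 F where
  toFun u := (![-u.1 0, u.1 1], ![-u.2 0, u.2 1])
  map_add' u v := by
    ext i
    · fin_cases i
      · simp; ring
      · simp
    · fin_cases i
      · simp; ring
      · simp
  map_smul' c u := by
    ext i
    · fin_cases i
      · simp
      · simp
    · fin_cases i
      · simp
      · simp
  invFun u := (![-u.1 0, u.1 1], ![-u.2 0, u.2 1])
  left_inv u := by
    ext i
    · fin_cases i <;> simp
    · fin_cases i <;> simp
  right_inv u := by
    ext i
    · fin_cases i <;> simp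
    · fin_cases i <;> simp

theorem wA_apply (s : F) (u : U2 F) :
    wA s u = (![u.1 0 + s * u.1 1, u.1 1], ![u.2 0, u.2 1 - s * u.2 0]) := rfl

theorem zA_apply (u : U2 F) : zA u = (![u.1 0, u.1 1 - u.1 0], ![u.2 0 + u.2 1, u.2 1]) := rfl

theorem dA_apply (u : U2 F) : dA u = (![-u.1 0, u.1 1], ![-u.2 0, u.2 1]) := rfl

theorem wA_mul (s t : F) : wA s * wA t = wA (s + t) := by
  ext u i
  · change (wA s (wA t u)).1 i = _
    rw [wA_apply, wA_apply, wA_apply]
    fin_cases i
    · simp; ring
    · simp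
  · change (wA s (wA t u)).2 i = _
    rw [wA_apply, wA_apply, wA_apply]
    fin_cases i
    · simp
    · simp; ring

theorem wA_zero : wA (0 : F) = 1 := by
  ext u i
  · rw [wA_apply]
    fin_cases i <;> simp
  · rw [wA_apply]
    fin_cases i <;> simp

theorem wA_pow (s : F) (n : ℕ) : wA s ^ n = wA (n * s) := by
  induction n with
  | zero => simp [wA_zero]
  | succ n ih => rw [pow_succ, ih, wA_mul]; congr 1; push_cast; ring

theorem wA_inv (s : F) : (wA s)⁻¹ = wA (-s) := by
  rw [inv_eq_iff_mul_eq_one, wA_mul, add_neg_cancel, wA_zero]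

theorem dA_inv : (dA : U2 F ≃ₗ[F] U2 F)⁻¹ = dA := by
  rw [inv_eq_iff_mul_eq_one]
  ext u i
  · change (dA (dA u)).1 i = _
    rw [dA_apply, dA_apply]
    fin_cases i <;> simp
  · change (dA (dA u)).2 i = _
    rw [dA_apply, dA_apply]
    fin_cases i <;> simp

theorem comm_eq (h2 : (2 : F) ≠ 0) : ⁅(dA : U2 F ≃ₗ[F] U2 F), wA (-(2 : F)⁻¹)⁆ = wA 1 := by
  rw [commutatorElement_def, dA_inv, wA_inv]
  have h3 : (2 : F)⁻¹ + (2 : F)⁻¹ = 1 := by
    rw [← two_mul]; exact mul_inv_cancel₀ h2
  ext u i
  · change (dA (wA _ (dA (wA _ u)))).1 i = _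
    rw [dA_apply, wA_apply, dA_apply, wA_apply, wA_apply]
    fin_cases i
    · simp
      linear_combination (u.1 1) * h3
    · simp
  · change (dA (wA _ (dA (wA _ u)))).2 i = _
    rw [dA_apply, wA_apply, dA_apply, wA_apply, wA_apply]
    fin_cases i
    · simp
    · simp
      linear_combination (-u.2 0) * h3

theorem braid : (zA : U2 F ≃ₗ[F] U2 F) * wA 1 * zA = wA 1 * zA * wA 1 := by
  ext u i
  · change (zA (wA 1 (zA u))).1 i = (wA 1 (zA (wA 1 u))).1 i
    rw [zA_apply, wA_apply, zA_apply, wA_apply, zA_apply, wA_apply]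
    fin_cases i
    · simp
    · simp
  · change (zA (wA 1 (zA u))).2 i = (wA 1 (zA (wA 1 u))).2 i
    rw [zA_apply, wA_apply, zA_apply, wA_apply, zA_apply, wA_apply]
    fin_cases i
    · simp
    · simp

end

/-- OE1 -/
theorem oe1 (h1 : OhydStmt) (h2 : OhybStmt) (h3 : OtrStmt) (h4 : ObrStmt) : Oe1Stmt := by
  intro F V _ _ _ _ _ Q p _ hND hp hp2 hdim d hd hlaw
  have h20 : (2 : F) ≠ 0 := by
    intro h
    have h' : ((2 : ℕ) : F) = 0 := by exact_mod_cast h
    have := (CharP.cast_eq_zero_iff F p 2).mp h'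
    have := (Nat.prime_dvd_prime_iff_eq hp Nat.prime_two).mp this
    exact hp2 this
  obtain ⟨W, hW, hW0⟩ := h1 F V Q 2 hND (by omega)
  obtain ⟨ι, hι⟩ := h2 F V Q 2 W hND hW hW0
  let P : QuadraticForm F (U2 F) := Q.comp ι
  have hP : ∀ u : U2 F, P u = u.1 0 * u.2 0 + u.1 1 * u.2 1 := by
    intro u
    have := hι u.1 u.2
    rw [Fin.sum_univ_two] at this
    exact this
  have hPND : ND P := by
    intro u hu
    have e1 := hu (![1, 0], ![0, 0])
    have e2 := hu (![0, 1], ![0, 0])
    have e3 := hu (![0, 0], ![1, 0])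
    have e4 := hu (![0, 0], ![0, 1])
    simp only [QuadraticMap.polar, hP, Prod.fst_add, Prod.snd_add, Pi.add_apply, Matrix.cons_val_zero,
      Matrix.cons_val_one, mul_zero, zero_mul, add_zero, zero_add, sub_zero, mul_one, one_mul] at e1 e2 e3 e4
    ext i
    · fin_cases i
      · change u.1 0 = 0
        linear_combination e3
      · change u.1 1 = 0
        linear_combination e4
    · fin_cases i
      · change u.2 0 = 0
        linear_combination e1
      · change u.2 1 = 0
        linear_combination e2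
  have hw : ∀ s : F, wA s ∈ OV P := by
    intro s u
    rw [hP, hP, wA_apply]
    simp
    ring
  have hz : (zA : U2 F ≃ₗ[F] U2 F) ∈ OV P := by
    intro u
    rw [hP, hP, zA_apply]
    simp
    ring
  have hdd : (dA : U2 F ≃ₗ[F] U2 F) ∈ OV P := by
    intro u
    rw [hP, hP, dA_apply]
    simp
  have hwO : wA (1 : F) ∈ OmV P := by
    rw [← comm_eq h20]
    exact Subgroup.commutator_mem_commutator hdd (hw _)
  refine h4 F (U2 F) P (wA 1) hwO zA hz braid p ?_ d hd (h3 F (U2 F) V P Q ι hPND (fun u => rfl) d hlaw)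
  intro d c hd hc
  rw [wA_pow] at hc
  have e := hc (![1, 0], ![0, 0])
  have e' := hc (![0, 1], ![0, 0])
  have e0 := congrFun (congrArg Prod.fst e) 1
  have e1 := congrFun (congrArg Prod.fst e) 0
  rw [zA_apply, wA_apply, zA_apply, wA_apply] at e0 e1
  simp at e0 e1
  have hc1 : c = 1 := by linear_combination -e0
  rw [hc1] at e1
  have h2d : (2 * (d : F)) = 0 := by linear_combination e1
  have hd0 : (d : F) = 0 := by
    rcases mul_eq_zero.mp h2d with h | h
    · exact absurd h h20
    · exact h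
  exact (CharP.cast_eq_zero_iff F p d).mp hd0

end Pool.Agent.Eng.H49
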