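import Pool.Agent.Helper99_Eng3.Stmts

set_option autoImplicit false

namespace Pool.Agent.Eng.H49

open Polynomial in
theorem sum_sq {F : Type} [Field F] [Finite F] (h2 : (2 : F) ≠ 0) (α β c : F) (hα : α ≠ 0)
    (hβ : β ≠ 0) : ∃ s t : F, α * s ^ 2 + β * t ^ 2 = c := by
  have : Fintype F := Fintype.ofFinite F
  have hch : ringChar F ≠ 2 := by
    intro h
    apply h2
    have := (ringChar.spec F 2).mpr (by rw [h])
    exact_mod_cast this
  have hd1 : degree (C α * X ^ 2 + C (-c) : F[X]) = 2 := by
    have : (C α * X ^ 2 + C (-c) : F[X]) = C α * X ^ 2 + C 0 * X + C (-c) := by simp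
    rw [this]
    exact degree_quadratic hα
  have hd2 : degree (C β * X ^ 2 : F[X]) = 2 := degree_C_mul_X_pow 2 hβ
  obtain ⟨s, t, hst⟩ := FiniteField.exists_root_sum_quadratic hd1 hd2
    (FiniteField.odd_card_of_char_ne_two hch)
  refine ⟨s, t, ?_⟩
  simp at hst
  linear_combination hst

section
variable {F : Type} [Field F]

theorem polar_ss {V : Type} [AddCommGroup V] [Module F V] (Q : QuadraticForm F V) (u : V) :
    QuadraticMap.polar Q u u = 2 * Q u := by
  rw [QuadraticMap.polar_self]; simp [two_mul, two_smul]

/-- anisotropic vector -/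
theorem exA {V : Type} [AddCommGroup V] [Module F V] [FiniteDimensional F V]
    (Q : QuadraticForm F V) (hND : ND Q) (hd : 1 ≤ Module.finrank F V) : ∃ u, Q u ≠ 0 := by
  by_contra hc
  push Not at hc
  have : Nontrivial V := Module.nontrivial_of_finrank_pos (R := F) (by omega)
  obtain ⟨u, hu⟩ := exists_ne (0 : V)
  apply hu
  apply hND
  intro v
  simp [QuadraticMap.polar, hc]

/-- orthogonal complement of an anisotropic vector -/
theorem exB {V : Type} [AddCommGroup V] [Module F V] [FiniteDimensional F V] (h2 : (2 : F) ≠ 0)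
    (Q : QuadraticForm F V) (hND : ND Q) (u : V) (hu : Q u ≠ 0) :
    ∃ W : Submodule F V, Module.finrank F W + 1 = Module.finrank F V ∧
      ND (Q.comp W.subtype) ∧ ∀ x ∈ W, QuadraticMap.polar Q x u = 0 := by
  let f : V →ₗ[F] F := (QuadraticMap.polarBilin Q) u
  have hf : ∀ x, f x = QuadraticMap.polar Q u x := fun x => rfl
  have hfu : f u ≠ 0 := by
    rw [hf, polar_ss]
    exact mul_ne_zero h2 hu
  refine ⟨LinearMap.ker f, ?_, ?_, ?_⟩
  · have h1 := LinearMap.finrank_range_add_finrank_ker f
    have h3 : LinearMap.range f = ⊤ := by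
      rw [LinearMap.range_eq_top]
      intro y
      refine ⟨(y / f u) • u, ?_⟩
      rw [map_smul, smul_eq_mul, div_mul_cancel₀ _ hfu]
    rw [h3, finrank_top, Module.finrank_self] at h1
    omega
  · intro x hx
    apply Subtype.ext
    apply hND
    intro z
    have hx0 : QuadraticMap.polar Q (x : V) u = 0 := by
      rw [QuadraticMap.polar_comm]
      exact LinearMap.mem_ker.mp x.2
    have hz : z - (f z / f u) • u ∈ LinearMap.ker f := by
      rw [LinearMap.mem_ker, map_sub, map_smul, smul_eq_mul, div_mul_cancel₀ _ hfu, sub_self]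
    have h4 := hx ⟨_, hz⟩
    have h5 : QuadraticMap.polar Q (x : V) (z - (f z / f u) • u) = 0 := by
      have h6 := h4
      simp only [QuadraticMap.polar, QuadraticMap.comp_apply, Submodule.subtype_apply,
        Submodule.coe_add] at h6
      exact h6
    rw [sub_eq_add_neg, QuadraticMap.polar_add_right, ← neg_smul, QuadraticMap.polar_smul_right,
      hx0, smul_zero, add_zero] at h5
    exact h5
  · intro x hx
    rw [QuadraticMap.polar_comm]
    exact LinearMap.mem_ker.mp hx

theorem polar_comb {V : Type} [AddCommGroup V] [Module F V] (Q : QuadraticForm F V) (u v : V)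
    (h : QuadraticMap.polar Q u v = 0) (s t : F) :
    Q (s • u + t • v) = Q u * s ^ 2 + Q v * t ^ 2 := by
  rw [QuadraticMap.map_add (⇑Q), QuadraticMap.map_smul, QuadraticMap.map_smul,
    QuadraticMap.polar_smul_left, QuadraticMap.polar_smul_right, h]
  simp only [smul_eq_mul]
  ring

/-- a vector with `Q u = 1` -/
theorem exC [Finite F] {V : Type} [AddCommGroup V] [Module F V] [FiniteDimensional F V]
    (h2 : (2 : F) ≠ 0) (Q : QuadraticForm F V) (hND : ND Q) (hd : 2 ≤ Module.finrank F V) :
    ∃ u, Q u = 1 := by
  obtain ⟨u, hu⟩ := exA Q hND (by omega)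
  obtain ⟨W, hW1, hW2, hW3⟩ := exB h2 Q hND u hu
  obtain ⟨v, hv⟩ := exA (Q.comp W.subtype) hW2 (by omega)
  obtain ⟨s, t, hst⟩ := sum_sq h2 (Q u) (Q (v : V)) 1 hu hv
  refine ⟨s • u + t • (v : V), ?_⟩
  rw [polar_comb Q u v (by rw [QuadraticMap.polar_comm]; exact hW3 v v.2)]
  exact hst

theorem exD [Finite F] (h2 : (2 : F) ≠ 0) (n : ℕ) : ∀ (V : Type) [AddCommGroup V] [Module F V]
    [FiniteDimensional F V] (Q : QuadraticForm F V) (m : ℕ), ND Q → Odd m →
    Module.finrank F V = n → m ≤ n →
    ∃ (l : F) (u : ℕ → V), l ≠ 0 ∧ (∀ i < m, Q (u i) = l) ∧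
      ∀ i < m, ∀ j < m, i ≠ j → QuadraticMap.polar Q (u i) (u j) = 0 := by
  induction n using Nat.strong_induction_on with
  | _ n ih =>
    intro V _ _ _ Q m hND hm hn hmn
    have hm1 : 1 ≤ m := hm.pos
    by_cases hlt : m < n
    · obtain ⟨u, hu⟩ := exA Q hND (by omega)
      obtain ⟨W, hW1, hW2, hW3⟩ := exB h2 Q hND u hu
      obtain ⟨l, w, hl, hw1, hw2⟩ := ih (n - 1) (by omega) W (Q.comp W.subtype) m hW2 hm (by omega)
        (by omega)
      refine ⟨l, fun i => (w i : V), hl, fun i hi => hw1 i hi, fun i hi j hj hij => ?_⟩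
      have := hw2 i hi j hj hij
      simp only [QuadraticMap.polar, QuadraticMap.comp_apply, Submodule.subtype_apply,
        Submodule.coe_add] at this ⊢
      exact this
    · have hmn' : m = n := by omega
      by_cases hm3 : m = 1
      · obtain ⟨u, hu⟩ := exA Q hND (by omega)
        refine ⟨Q u, fun _ => u, hu, fun i hi => rfl, fun i hi j hj hij => ?_⟩
        omega
      · have hm3' : 3 ≤ m := by
          obtain ⟨k, hk⟩ := hm
          omega
        obtain ⟨u, hu⟩ := exC h2 Q hND (by omega)
        obtain ⟨W, hW1, hW2, hW3⟩ := exB h2 Q hND u (by rw [hu]; exact one_ne_zero)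
        obtain ⟨u', hu'⟩ := exC h2 (Q.comp W.subtype) hW2 (by omega)
        obtain ⟨W', hW1', hW2', hW3'⟩ := exB h2 (Q.comp W.subtype) hW2 u'
          (by rw [hu']; exact one_ne_zero)
        have hm2 : Odd (m - 2) := by
          obtain ⟨k, hk⟩ := hm
          exact ⟨k - 1, by omega⟩
        obtain ⟨l, w, hl, hw1, hw2⟩ := ih (n - 2) (by omega) W'
          ((Q.comp W.subtype).comp W'.subtype) (m - 2) hW2' hm2 (by omega) (by omega)
        obtain ⟨s, t, hst⟩ := sum_sq h2 (1 : F) 1 l one_ne_zero one_ne_zero
        have hQu' : Q (u' : V) = 1 := hu'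
        have huu' : QuadraticMap.polar Q u (u' : V) = 0 := by
          rw [QuadraticMap.polar_comm]; exact hW3 u' u'.2
        have huw : ∀ i, QuadraticMap.polar Q u ((w i : W) : V) = 0 := by
          intro i
          rw [QuadraticMap.polar_comm]; exact hW3 _ (w i : W).2
        have hu'w : ∀ i, QuadraticMap.polar Q (u' : V) ((w i : W) : V) = 0 := by
          intro i
          rw [QuadraticMap.polar_comm]
          have := hW3' (w i : W) (w i).2
          simp only [QuadraticMap.polar, QuadraticMap.comp_apply, Submodule.subtype_apply,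
            Submodule.coe_add] at this ⊢
          exact this
        have hQw : ∀ i < m - 2, Q ((w i : W) : V) = l := fun i hi => hw1 i hi
        have hww : ∀ i < m - 2, ∀ j < m - 2, i ≠ j →
            QuadraticMap.polar Q ((w i : W) : V) ((w j : W) : V) = 0 := by
          intro i hi j hj hij
          have := hw2 i hi j hj hij
          simp only [QuadraticMap.polar, QuadraticMap.comp_apply, Submodule.subtype_apply,
            Submodule.coe_add] at this ⊢
          exact this
        let g : ℕ → V := fun i => match i with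
          | 0 => s • u + t • (u' : V)
          | 1 => (-t) • u + s • (u' : V)
          | j + 2 => ((w j : W) : V)
        have hu'u : QuadraticMap.polar Q (u' : V) u = 0 := by
          rw [QuadraticMap.polar_comm]; exact huu'
        have h01 : QuadraticMap.polar Q (s • u + t • (u' : V)) ((-t) • u + s • (u' : V)) = 0 := by
          rw [QuadraticMap.polar_add_left, QuadraticMap.polar_add_right,
            QuadraticMap.polar_add_right]
          simp only [QuadraticMap.polar_smul_left, QuadraticMap.polar_smul_right, huu', hu'u,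
            polar_ss, hu, hQu', smul_eq_mul]
          ring
        have h0w : ∀ (a b : F) (i : ℕ),
            QuadraticMap.polar Q (a • u + b • (u' : V)) ((w i : W) : V) = 0 := by
          intro a b i
          rw [QuadraticMap.polar_add_left]
          simp only [QuadraticMap.polar_smul_left, huw, hu'w, smul_zero, add_zero]
        refine ⟨l, g, hl, ?_, ?_⟩
        · intro i hi
          match i with
          | 0 =>
            change Q (s • u + t • (u' : V)) = l
            rw [polar_comb Q _ _ huu', hu, hQu', ← hst]
          | 1 =>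
            change Q ((-t) • u + s • (u' : V)) = l
            rw [polar_comb Q _ _ huu', hu, hQu', ← hst]
            ring
          | j + 2 => exact hQw j (by omega)
        · intro i hi j hj hij
          match i, j with
          | 0, 0 => exact absurd rfl hij
          | 0, 1 => exact h01
          | 1, 0 =>
            rw [QuadraticMap.polar_comm]; exact h01
          | 1, 1 => exact absurd rfl hij
          | 0, j + 2 => exact h0w _ _ j
          | 1, j + 2 => exact h0w _ _ j
          | i + 2, 0 =>
            rw [QuadraticMap.polar_comm]; exact h0w _ _ i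
          | i + 2, 1 =>
            rw [QuadraticMap.polar_comm]; exact h0w _ _ i
          | i + 2, j + 2 => exact hww i (by omega) j (by omega) (by omega)

end

/-- OEOB -/
theorem oeob (h1 : OhydStmt) (h2 : OhybStmt) : OeobStmt := by
  intro F V _ _ _ _ _ Q m _ hND h20 hm hdim
  have hm1 : 1 ≤ m := hm.pos
  obtain ⟨W, hW, hW0⟩ := h1 F V Q 1 hND (by omega)
  obtain ⟨ι, hι⟩ := h2 F V Q 1 W hND hW hW0
  let v : V := ι (fun _ => 1, 0)
  let v' : V := ι (0, fun _ => 1)
  have hab : ∀ a b : F, Q (a • v + b • v') = a * b := by
    intro a b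
    have : a • v + b • v' = ι (fun _ => a, fun _ => b) := by
      rw [← map_smul, ← map_smul, ← map_add]
      congr 1
      ext i <;> simp
    rw [this, hι]
    simp
  have hv : Q v = 0 := by simpa using hab 1 0
  have hv' : Q v' = 0 := by simpa using hab 0 1
  have hvv' : QuadraticMap.polar Q v v' = 1 := by
    have := hab 1 1
    rw [one_smul, one_smul] at this
    rw [QuadraticMap.polar, this, hv, hv']
    ring
  have hv'v : QuadraticMap.polar Q v' v = 1 := by rw [QuadraticMap.polar_comm]; exact hvv'
  let f : V →ₗ[F] F × F := ((QuadraticMap.polarBilin Q) v).prod ((QuadraticMap.polarBilin Q) v')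
  have hf : ∀ x, f x = (QuadraticMap.polar Q v x, QuadraticMap.polar Q v' x) := fun x => rfl
  have hker : m ≤ Module.finrank F (LinearMap.ker f) := by
    have h3 := LinearMap.finrank_range_add_finrank_ker f
    have h4 : Module.finrank F (LinearMap.range f) ≤ 2 := by
      have := Submodule.finrank_le (LinearMap.range f)
      simpa [Module.finrank_prod] using this
    omega
  have hmem : ∀ x ∈ LinearMap.ker f, QuadraticMap.polar Q v x = 0 ∧
      QuadraticMap.polar Q v' x = 0 := by
    intro x hx
    have := LinearMap.mem_ker.mp hx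
    rw [hf] at this
    exact Prod.mk_eq_zero.mp this
  have hND' : ND (Q.comp (LinearMap.ker f).subtype) := by
    intro x hx
    apply Subtype.ext
    apply hND
    intro z
    obtain ⟨hx1, hx2⟩ := hmem x x.2
    have hz : z - QuadraticMap.polar Q v' z • v - QuadraticMap.polar Q v z • v' ∈
        LinearMap.ker f := by
      rw [LinearMap.mem_ker, hf, sub_eq_add_neg, sub_eq_add_neg, ← neg_smul, ← neg_smul]
      simp only [QuadraticMap.polar_add_right, QuadraticMap.polar_smul_right, hvv', hv'v,
        polar_ss, hv, hv']
      ext <;> simp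
    have h5 := hx ⟨_, hz⟩
    have h6 : QuadraticMap.polar Q (x : V)
        (z - QuadraticMap.polar Q v' z • v - QuadraticMap.polar Q v z • v') = 0 := by
      simp only [QuadraticMap.polar, QuadraticMap.comp_apply, Submodule.subtype_apply,
        Submodule.coe_add] at h5 ⊢
      exact h5
    rw [sub_eq_add_neg, sub_eq_add_neg, ← neg_smul, ← neg_smul] at h6
    simp only [QuadraticMap.polar_add_right, QuadraticMap.polar_smul_right] at h6
    rw [QuadraticMap.polar_comm Q (x : V) v, QuadraticMap.polar_comm Q (x : V) v', hx1, hx2] at h6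
    simpa using h6
  obtain ⟨l, u, hl, hu1, hu2⟩ := exD h20 _ (LinearMap.ker f) (Q.comp (LinearMap.ker f).subtype) m
    hND' hm rfl hker
  let L : (ZMod m → F) →ₗ[F] V := Fintype.linearCombination F (fun i : ZMod m => ((u i.val : LinearMap.ker f) : V))
  have hL : ∀ x, L x = ∑ i, x i • ((u i.val : LinearMap.ker f) : V) := by
    intro x
    rw [Fintype.linearCombination_apply]
  have hu1' : ∀ i : ZMod m, Q ((u i.val : LinearMap.ker f) : V) = l := fun i =>
    hu1 _ (ZMod.val_lt i)
  have hu2' : ∀ i j : ZMod m, i ≠ j → QuadraticMap.polar Q ((u i.val : LinearMap.ker f) : V)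
      ((u j.val : LinearMap.ker f) : V) = 0 := by
    intro i j hij
    have := hu2 _ (ZMod.val_lt i) _ (ZMod.val_lt j) (fun h => hij (ZMod.val_injective m h))
    simp only [QuadraticMap.polar, QuadraticMap.comp_apply, Submodule.subtype_apply,
      Submodule.coe_add] at this ⊢
    exact this
  have hQL : ∀ x, Q (L x) = l * ∑ i, x i ^ 2 := by
    intro x
    have h7 : QuadraticMap.polar Q (L x) (L x) = 2 * (l * ∑ i, x i ^ 2) := by
      have h8 : QuadraticMap.polar Q (L x) (L x) =
          (QuadraticMap.polarBilin Q) (L x) (L x) := rfl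
      rw [h8, hL, map_sum, Finset.mul_sum, Finset.mul_sum]
      apply Finset.sum_congr rfl
      intro i _
      rw [map_smul, map_sum, LinearMap.sum_apply, Finset.sum_eq_single i]
      · rw [map_smul, LinearMap.smul_apply]
        have : (QuadraticMap.polarBilin Q) ((u i.val : LinearMap.ker f) : V)
            ((u i.val : LinearMap.ker f) : V) = 2 * l := by
          rw [← hu1' i]; exact polar_ss Q _
        rw [this]
        simp only [smul_eq_mul]
        ring
      · intro j _ hj
        rw [map_smul, LinearMap.smul_apply]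
        have : (QuadraticMap.polarBilin Q) ((u j.val : LinearMap.ker f) : V)
            ((u i.val : LinearMap.ker f) : V) = 0 := hu2' j i hj
        rw [this, smul_zero]
      · intro h; exact absurd (Finset.mem_univ i) h
    rw [polar_ss] at h7
    exact mul_left_cancel₀ h20 h7
  have hLker : ∀ x, L x ∈ LinearMap.ker f := by
    intro x
    rw [hL]
    exact Submodule.sum_mem _ fun i _ => Submodule.smul_mem _ _ (u i.val).2
  refine ⟨l, L.coprod ((LinearMap.toSpanSingleton F V v).coprod (LinearMap.toSpanSingleton F V v')),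
    hl, ?_⟩
  intro x a b
  rw [LinearMap.coprod_apply, LinearMap.coprod_apply, LinearMap.toSpanSingleton_apply,
    LinearMap.toSpanSingleton_apply]
  change Q (L x + (a • v + b • v')) = _
  obtain ⟨h9, h10⟩ := hmem _ (hLker x)
  rw [QuadraticMap.map_add (⇑Q), hQL, hab, QuadraticMap.polar_add_right, QuadraticMap.polar_smul_right,
    QuadraticMap.polar_smul_right, QuadraticMap.polar_comm Q (L x) v,
    QuadraticMap.polar_comm Q (L x) v', h9, h10]
  simp

end Pool.Agent.Eng.H49
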